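import Mathlib

/-! The kernel of a half-homomorphism from a Moufang loop to a loop is a normal subloop. -/

set_option autoImplicit false

namespace Pool.Agent.Results.MP_d39372_al.Normal

/-- `(Q, *, 1)` is a loop. -/
structure IsLoop (Q : Type*) [Mul Q] [One Q] : Prop where
  one_mul : ∀ a : Q, 1 * a = a
  mul_one : ∀ a : Q, a * 1 = a
  left_div : ∀ a b : Q, ∃! x, a * x = b
  right_div : ∀ a b : Q, ∃! y, y * a = b

/-- The Moufang identity. -/
def IsMoufang (Q : Type*) [Mul Q] : Prop := ∀ x y z : Q, x * (y * (x * z)) = ((x * y) * x) * z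

/-- Half-homomorphisms. -/
def IsHalfHom {Q Q' : Type*} [Mul Q] [Mul Q'] (φ : Q → Q') : Prop :=
  ∀ a b, φ (a * b) = φ a * φ b ∨ φ (a * b) = φ b * φ a

/-- `K` is a subloop: it contains `1` and is closed under the product and both divisions. -/
def IsSubloop {Q : Type*} [Mul Q] [One Q] (K : Set Q) : Prop :=
  1 ∈ K ∧ (∀ a ∈ K, ∀ b ∈ K, a * b ∈ K) ∧ (∀ a ∈ K, ∀ x, a * x ∈ K → x ∈ K) ∧
    ∀ a ∈ K, ∀ y, y * a ∈ K → y ∈ K

/-- `K` is a normal subloop. -/
def IsNormalSubloop {Q : Type*} [Mul Q] [One Q] (K : Set Q) : Prop :=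
  IsSubloop K ∧ ∀ x y : Q, (fun k => x * k) '' K = (fun k => k * x) '' K ∧
    (fun k => x * (y * k)) '' K = (fun k => (x * y) * k) '' K ∧
    (fun k => (k * x) * y) '' K = (fun k => k * (x * y)) '' K

section
variable {Q : Type*} [Mul Q] [One Q] (h : IsLoop Q)

include h in
lemma lc {a x y : Q} (e : a * x = a * y) : x = y := (h.left_div a (a * y)).unique e rfl
include h in
lemma rc {a x y : Q} (e : x * a = y * a) : x = y := (h.right_div a (y * a)).unique e rfl

noncomputable def iv (a : Q) : Q := (h.left_div a 1).exists.choose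
lemma mul_iv (a : Q) : a * iv h a = 1 := (h.left_div a 1).exists.choose_spec

variable (m : IsMoufang Q)
include m

include h in
lemma flex (x y : Q) : x * (y * x) = (x * y) * x := by simpa [h.mul_one] using m x y 1
include h in
lemma lalt (x z : Q) : x * (x * z) = (x * x) * z := by simpa [h.mul_one, h.one_mul] using m x 1 z
lemma lip (x z : Q) : iv h x * (x * z) = z := lc h (a := x) (by rw [m, mul_iv, h.one_mul])
lemma iv_mul (x : Q) : iv h x * x = 1 := by simpa [h.mul_one] using lip h m x 1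
lemma iv_iv (x : Q) : iv h (iv h x) = x := lc h (a := iv h x) (by rw [mul_iv, iv_mul h m])
lemma lip' (x z : Q) : x * (iv h x * z) = z := by simpa [iv_iv h m] using lip h m (iv h x) z
lemma rip (w x : Q) : (w * x) * iv h x = w := by
  have := m x (iv h x * w) (iv h x)
  rw [mul_iv, h.mul_one, lip' h m] at this
  exact this.symm
lemma rip' (w x : Q) : (w * iv h x) * x = w := by simpa [iv_iv h m] using rip h m w (iv h x)
lemma aaip (x y : Q) : iv h (x * y) = iv h y * iv h x := by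
  have h1 : iv h (x * y) * x = iv h y := by
    conv_lhs => rw [← rip h m x y]
    rw [rip h m x y, ← lip h m (x * y) (iv h y), rip h m]
  rw [← h1, rip h m]
include h in
lemma rm (z x y : Q) : ((z * x) * y) * x = z * (x * (y * x)) := by
  have := congrArg (iv h) (m (iv h x) (iv h y) (iv h z))
  simpa only [aaip h m, iv_iv h m] using this
include h in
lemma ralt (z x : Q) : (z * x) * x = z * (x * x) := by
  simpa [h.mul_one, h.one_mul] using rm h m z x 1
lemma lm (x a b : Q) : ((x * a) * x) * (iv h x * b) = x * (a * b) := by rw [← m, lip' h m]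
include h in
lemma mm (x y z : Q) : (x * y) * (z * x) = (x * (y * z)) * x := by
  have := lm h m x (y * z) (iv h z)
  rw [rip h m] at this
  rw [← this]
  have h2 : z * x = iv h (iv h x * iv h z) := by rw [aaip h m, iv_iv h m, iv_iv h m]
  rw [h2, rip h m]
lemma idd (y a b : Q) : y * ((a * iv h b) * a) = ((y * a) * iv h (y * b)) * (y * a) := by
  have h1 : (y * a) * iv h (y * b) = (y * (a * ((iv h b * iv h y) * iv h y))) * y := by
    rw [← mm h m, rip' h m, aaip h m]
  have h2 : y * a = iv h y * ((y * y) * a) := by rw [← lalt h m, lip h m]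
  rw [h1]
  conv_rhs => rw [h2]
  rw [lm h m, mm h m, ← ralt h m, rip' h m, rip' h m]

variable {Q' : Type*} [Mul Q'] [One Q'] (h' : IsLoop Q') {φ : Q → Q'} (hφ : IsHalfHom φ)
include h' hφ

omit m [One Q] in
lemma kr {k : Q} (hk : φ k = 1) (a : Q) : φ (a * k) = φ a := by
  rcases hφ a k with e | e <;> rw [e, hk] <;> simp [h'.mul_one, h'.one_mul]
omit m [One Q] in
lemma kl {k : Q} (hk : φ k = 1) (a : Q) : φ (k * a) = φ a := by
  rcases hφ k a with e | e <;> rw [e, hk] <;> simp [h'.mul_one, h'.one_mul]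
omit m [One Q] in
lemma ker1 {a c : Q} (e : φ (a * c) = φ a) : φ c = 1 := by
  rcases hφ a c with e' | e'
  · exact lc h' (a := φ a) (by rw [← e', e, h'.mul_one])
  · exact rc h' (a := φ a) (by rw [← e', e, h'.one_mul])
omit m [One Q] in
lemma ker2 {a c : Q} (e : φ (c * a) = φ a) : φ c = 1 := by
  rcases hφ c a with e' | e'
  · exact rc h' (a := φ a) (by rw [← e', e, h'.one_mul])
  · exact lc h' (a := φ a) (by rw [← e', e, h'.mul_one])
omit m in
include h in
lemma one1 : φ 1 = 1 := ker1 h' hφ (a := 1) (by rw [h.mul_one])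
omit m in
lemma kiv {k : Q} (hk : φ k = 1) : φ (iv h k) = 1 := by
  rw [← kl h' hφ hk, mul_iv, one1 h h' hφ]
include h in
lemma exr {a b : Q} (e : φ a = φ b) : ∃ k, φ k = 1 ∧ b = a * k :=
  ⟨iv h a * b, ker1 h' hφ (a := a) (by rw [lip' h m, e]), (lip' h m _ _).symm⟩
include h in
lemma exl {a b : Q} (e : φ a = φ b) : ∃ k, φ k = 1 ∧ b = k * a :=
  ⟨b * iv h a, ker2 h' hφ (a := a) (by rw [rip' h m, e]), (rip' h m _ _).symm⟩
lemma sinv {a b : Q} (e : φ a = φ b) : φ (iv h a) = φ (iv h b) := by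
  obtain ⟨k, hk, rfl⟩ := exr h m h' hφ e
  rw [aaip h m, kl h' hφ (kiv h h' hφ hk)]
include h in
lemma Phi (a : Q) {q q' : Q} (e : φ q = φ q') : φ (((a * q) * a) * a) = φ (((a * q') * a) * a) := by
  obtain ⟨k, hk, rfl⟩ := exl h m h' hφ e
  have key : ∀ p, ((a * p) * iv h a) * (a * ((q * a) * a)) = ((a * (p * q)) * a) * a := fun p => by
    rw [← rm h m, rip' h m, mm h m]
  have h1 := key 1
  rw [h.mul_one, mul_iv, h.one_mul, h.one_mul] at h1
  rw [← key, h1]
  refine (kl h' hφ (ker2 h' hφ (a := a) ?_) _).symm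
  rw [rip' h m, kr h' hφ hk]
lemma TT (a : Q) {b b' : Q} (e : φ b = φ b') : φ (a * (b * iv h a)) = φ (a * (b' * iv h a)) := by
  have P : ∀ {q q' : Q}, φ q = φ q' → φ (a * (a * (q * a))) = φ (a * (a * (q' * a))) := fun e => by
    simpa only [aaip h m, iv_iv h m] using
      sinv h m h' hφ (Phi h m h' hφ (iv h a) (sinv h m h' hφ e))
  have := P (Phi h m h' hφ (iv h a) e)
  simp only [rip' h m] at this
  simpa only [← flex h m, lip' h m] using this
include h in
lemma F1 (a z z' : Q) : φ (a * z) = φ (a * z') ↔ φ (z * a) = φ (z' * a) :=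
  ⟨fun e => by simpa only [iv_iv h m, ← flex h m, lip h m] using TT h m h' hφ (iv h a) e,
    fun e => by simpa only [rip h m] using TT h m h' hφ a e⟩

omit m h' [One Q] [One Q'] in
lemma two {x x' x'' y y' y'' : Q} (e1 : φ x' = φ x) (e2 : φ x'' = φ x) (e3 : φ y' = φ y)
    (e4 : φ y'' = φ y) (n1 : φ (x' * y') ≠ φ (x * y)) (n2 : φ (x'' * y'') ≠ φ (x * y)) :
    φ (x' * y') = φ (x'' * y'') := by
  have a1 := hφ x y; have a2 := hφ x' y'; have a3 := hφ x'' y''
  rw [e1, e3] at a2; rw [e2, e4] at a3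
  rcases a1 with a1 | a1 <;> rcases a2 with a2 | a2 <;> rcases a3 with a3 | a3 <;> simp_all

include h in
lemma TR {x x' y y' : Q} (e1 : φ x' = φ x) (e2 : φ y' = φ y) (e : φ (y' * x') = φ (y * x)) :
    φ (x' * y') = φ (x * y) := by
  have a1 := F1 h m h' hφ x y y'
  have a2 := F1 h m h' hφ y' x x'
  by_cases c : φ (y * x) = φ (y' * x)
  · rw [a1.2 c, a2.1 (c.symm.trans e.symm)]
  · exact two hφ (x := x) (y := y') e1 rfl rfl e2.symm
      (fun c' => c (e.symm.trans (a2.2 c'.symm).symm)) fun c' => c (a1.1 c')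
lemma SP {x y c : Q} (e : φ (y * (x * c)) = φ (y * x)) : φ (y * (x * iv h c)) = φ (y * x) := by
  obtain ⟨l, hl, e'⟩ := exr h m h' hφ e.symm
  have := idd h m y x (x * c)
  rw [e', aaip h m, aaip h m, ← flex h m, ← flex h m, rip' h m, rip' h m] at this
  rw [this, kr h' hφ (kiv h h' hφ hl)]
include h in
lemma AL {c : Q} (hc : φ c = 1) (x y : Q) : φ (((x * c) * c) * y) = φ (x * y) := by
  rw [← F1 h m h' hφ]
  by_cases e : φ (y * ((x * c) * c)) = φ (y * (x * c))
  · have := SP h m h' hφ e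
    rw [rip h m] at this
    rw [e, this]
  · refine two hφ (x := y) (y := x * c) rfl rfl (kr h' hφ hc _) (kr h' hφ hc _).symm e fun e' => e ?_
    have := SP h m h' hφ (x := x * c) (y := y) (c := iv h c) (by rwa [rip h m])
    rwa [iv_iv h m] at this
include h in
lemma MC1 {c : Q} (hc : φ c = 1) (x y : Q) : φ ((c * x) * y) = φ (x * y) := by
  have R1 : ∀ x y, φ ((x * c) * (c * y)) = φ (x * y) := fun x y =>
    TR h m h' hφ (kr h' hφ hc _) (kl h' hφ hc _) (by rw [mm h m, kr h' hφ hc, kl h' hφ hc])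
  have := R1 ((c * x) * c) (iv h c * y)
  rw [lip' h m, lm h m, kl h' hφ hc] at this
  rw [← AL h m h' hφ hc, this]
include h in
lemma MC2 {c : Q} (hc : φ c = 1) (x y : Q) : φ (x * (y * c)) = φ (x * y) := by
  have hi := kiv h h' hφ hc
  have := mm h m (iv h c) x (y * c)
  rw [rip h m] at this
  rw [← MC1 h m h' hφ hi x y, this, kr h' hφ hi, kl h' hφ hi]

end

theorem result {Q Q' : Type*} [Mul Q] [One Q] [Mul Q'] [One Q'] (h : IsLoop Q) (m : IsMoufang Q)
    (h' : IsLoop Q') (φ : Q → Q') (hφ : IsHalfHom φ) : IsNormalSubloop {a | φ a = 1} := by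
  refine ⟨⟨one1 h h' hφ, fun a ha b hb => (kl h' hφ ha b).trans hb,
    fun a ha x hx => (kl h' hφ ha x).symm.trans hx, fun a ha x hx => (kr h' hφ ha x).symm.trans hx⟩,
    fun x y => ⟨?_, ?_, ?_⟩⟩ <;> ext z <;> constructor <;> rintro ⟨k, hk, rfl⟩
  · obtain ⟨l, hl, e⟩ := exl h m h' hφ (kr h' hφ hk x).symm
    exact ⟨l, hl, e.symm⟩
  · obtain ⟨l, hl, e⟩ := exr h m h' hφ (kl h' hφ hk x).symm
    exact ⟨l, hl, e.symm⟩
  · obtain ⟨l, hl, e⟩ := exr h m h' hφ (MC2 h m h' hφ hk x y).symm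
    exact ⟨l, hl, e.symm⟩
  · have := MC2 h m h' hφ hk (iv h x) (x * y)
    rw [lip h m] at this
    obtain ⟨l, hl, e⟩ := exr h m h' hφ this.symm
    exact ⟨l, hl, by simp only [← e, lip' h m]⟩
  · obtain ⟨l, hl, e⟩ := exl h m h' hφ (MC1 h m h' hφ hk x y).symm
    exact ⟨l, hl, e.symm⟩
  · have := MC1 h m h' hφ hk (x * y) (iv h y)
    rw [rip h m] at this
    obtain ⟨l, hl, e⟩ := exl h m h' hφ this.symm
    exact ⟨l, hl, by simp only [← e, rip' h m]⟩

end Pool.Agent.Results.MP_d39372_al.Normal
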